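import Mathlib

/-!
# Arcs of `[Mat_2 / SL_2]` over arcs of its good moduli space `A^1`

The stack `[Mat_2 / SL_2]` (`SL_2` acting by left multiplication) has the good moduli space
`det : [Mat_2 / SL_2] → A^1`, which is an isomorphism over `A^1 - 0`; its stabilizers are `1`, `G_a`
and `SL_2`, all special. We show that every arc of `A^1` through the origin, over any infinite
field, lifts in infinitely many ways to `[Mat_2 / SL_2]`, so that `sep ⁻¹ (0)` is the set of all
arcs through the origin.
-/

set_option autoImplicit false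

open PowerSeries

namespace Pool.Agent.Results.MP_d9eb96_ag.SL2Arcs

section Defs

variable {R : Type} [CommRing R]

variable (R) in
/-- An `R`-point of the stack `[Mat_2 / SL_2]`: a vector bundle `E` of rank `2` on `Spec R` with a
perfect alternating form `vol` (the same as a trivialisation of its determinant, i.e. as an
`SL_2`-torsor), and two sections `s₁, s₂` of `E` (the same as an equivariant map from the torsor to
`Mat_2`; the two columns). -/
structure Pt where
  /-- the vector bundle -/
  E : Type
  [grp : AddCommGroup E]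
  [mod : Module R E]
  [fin : Module.Finite R E]
  [proj : Module.Projective R E]
  rank : ∀ p : PrimeSpectrum R, Module.rankAtStalk (R := R) E p = 2
  /-- the volume form -/
  vol : E →ₗ[R] E →ₗ[R] R
  alt : ∀ x, vol x x = 0
  perfect : Function.Bijective vol
  /-- the first section -/
  s₁ : E
  /-- the second section -/
  s₂ : E

attribute [instance] Pt.grp Pt.mod Pt.fin Pt.proj

/-- The map `π = det : [Mat_2 / SL_2] → A^1` on `R`-points. -/
def Pt.det (X : Pt R) : R := X.vol X.s₁ X.s₂

/-- An isomorphism of `R`-points of `[Mat_2 / SL_2]`. -/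
structure PtIso (X Y : Pt R) where
  /-- the isomorphism of the vector bundles -/
  e : X.E ≃ₗ[R] Y.E
  vol_eq : ∀ x y, Y.vol (e x) (e y) = X.vol x y
  s₁_eq : e X.s₁ = Y.s₁
  s₂_eq : e X.s₂ = Y.s₂

/-- Being isomorphic, as an equivalence relation on the `R`-points lying over `φ ∈ R = A^1(R)`. -/
def fibSetoid (φ : R) : Setoid {X : Pt R // X.det = φ} where
  r X Y := Nonempty (PtIso X.1 Y.1)
  iseqv :=
    { refl := fun X => ⟨⟨LinearEquiv.refl R X.1.E, fun _ _ => rfl, rfl, rfl⟩⟩
      symm := by
        rintro X Y ⟨f⟩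
        refine ⟨⟨f.e.symm, fun x y => ?_, ?_, ?_⟩⟩
        · rw [← f.vol_eq, LinearEquiv.apply_symm_apply, LinearEquiv.apply_symm_apply]
        · rw [← f.s₁_eq, LinearEquiv.symm_apply_apply]
        · rw [← f.s₂_eq, LinearEquiv.symm_apply_apply]
      trans := by
        rintro X Y Z ⟨f⟩ ⟨g⟩
        refine ⟨⟨f.e.trans g.e, fun x y => ?_, ?_, ?_⟩⟩
        · rw [LinearEquiv.trans_apply, LinearEquiv.trans_apply, g.vol_eq, f.vol_eq]
        · rw [LinearEquiv.trans_apply, f.s₁_eq, g.s₁_eq]
        · rw [LinearEquiv.trans_apply, f.s₂_eq, g.s₂_eq] }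

/-- The set `F_φ` of the isomorphism classes of `R`-points of `[Mat_2 / SL_2]` over `φ ∈ A^1(R)`. -/
def Fib (φ : R) : Type 1 := Quotient (fibSetoid φ)

/-- `sep_π (φ)` for an arc `φ ∈ F[[t]]` of `A^1` over a field `F`: the number of elements of `F_φ`
if `F_φ` is finite, and `0` otherwise. -/
noncomputable def sep {F : Type} [Field F] (φ : F⟦X⟧) : ℕ := Nat.card (Fib φ)

/-- The arc space of `A^1` over `k` is the spectrum of `k[x_0, x_1, ...]`. This is the arc
`∑ x_i t^i ∈ κ(P)[[t]]` over the residue field of the point `P`. -/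
noncomputable def arcOf {k : Type} [Field k] (P : PrimeSpectrum (MvPolynomial ℕ k)) :
    (P.asIdeal.ResidueField)⟦X⟧ :=
  PowerSeries.mk fun i => algebraMap (MvPolynomial ℕ k) P.asIdeal.ResidueField (MvPolynomial.X i)

/-- The standard `R`-point of `[Mat_2 / SL_2]` given by a matrix `M ∈ Mat_2(R)` (and the trivial
torsor). -/
def stdVol (R : Type) [CommRing R] : (Fin 2 → R) →ₗ[R] (Fin 2 → R) →ₗ[R] R :=
  LinearMap.mk₂ R (fun x y => x 0 * y 1 - x 1 * y 0)
    (fun x y z => by simp only [Pi.add_apply]; ring)
    (fun c x y => by simp only [Pi.smul_apply, smul_eq_mul]; ring)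
    (fun x y z => by simp only [Pi.add_apply]; ring)
    (fun c x y => by simp only [Pi.smul_apply, smul_eq_mul]; ring)

end Defs

section Std

variable {R : Type} [CommRing R]

theorem stdVol_apply (x y : Fin 2 → R) : stdVol R x y = x 0 * y 1 - x 1 * y 0 := rfl

theorem stdVol_perfect : Function.Bijective (stdVol R) := by
  constructor
  · rw [injective_iff_map_eq_zero]
    intro x hx
    have h1 := LinearMap.congr_fun hx ![0, 1]
    have h2 := LinearMap.congr_fun hx ![1, 0]
    rw [stdVol_apply] at h1 h2
    simp at h1 h2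
    funext i
    fin_cases i
    · exact h1
    · exact h2
  · intro l
    refine ⟨![l ![0, 1], - l ![1, 0]], ?_⟩
    apply LinearMap.ext
    intro y
    rw [stdVol_apply]
    have h : y = y 0 • ![1, 0] + y 1 • ![0, 1] := by
      funext i
      fin_cases i <;> simp
    conv_rhs => rw [h]
    rw [map_add, map_smul, map_smul]
    simp
    ring

/-- The `R`-point of `[Mat_2 / SL_2]` given by a matrix `M ∈ Mat_2(R)` (and the trivial torsor): the
sections are the columns of `M`. -/
def std (M : Matrix (Fin 2) (Fin 2) R) : Pt R where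
  E := Fin 2 → R
  rank p := by
    have : Nontrivial R := p.nontrivial
    rw [Module.rankAtStalk_eq_finrank_of_free]
    simp
  vol := stdVol R
  alt x := by rw [stdVol_apply]; ring
  perfect := stdVol_perfect
  s₁ i := M i 0
  s₂ i := M i 1

theorem std_det (M : Matrix (Fin 2) (Fin 2) R) : (std M).det = M.det := by
  rw [Matrix.det_fin_two]
  show M 0 0 * M 1 1 - M 1 0 * M 0 1 = _
  ring

theorem vol_swap (X : Pt R) (x y : X.E) : X.vol x y = - X.vol y x := by
  have h := X.alt (x + y)
  rw [map_add, LinearMap.map_add₂, LinearMap.map_add₂, X.alt, X.alt, zero_add, add_zero] at h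
  exact eq_neg_of_add_eq_zero_right h

/-- coordinates -/
def coord (X : Pt R) (a b : X.E) : X.E →ₗ[R] (Fin 2 → R) :=
  LinearMap.pi ![X.vol.flip b, X.vol a]

theorem coord_zero (X : Pt R) (a b z : X.E) : coord X a b z 0 = X.vol z b := rfl

theorem coord_one (X : Pt R) (a b z : X.E) : coord X a b z 1 = X.vol a z := rfl

theorem coord_comb (X : Pt R) (a b : X.E) (hab : X.vol a b = 1) (c : Fin 2 → R) :
    coord X a b (c 0 • a + c 1 • b) = c := by
  funext i
  fin_cases i
  · show coord X a b (c 0 • a + c 1 • b) 0 = c 0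
    rw [coord_zero, map_add, map_smul, map_smul, LinearMap.add_apply, LinearMap.smul_apply,
      LinearMap.smul_apply, hab, X.alt]
    simp
  · show coord X a b (c 0 • a + c 1 • b) 1 = c 1
    rw [coord_one, map_add, map_smul, map_smul, hab, X.alt]
    simp

theorem coord_bij (X : Pt R) (a b : X.E) (hab : X.vol a b = 1) :
    Function.Bijective (coord X a b) := by
  apply Module.bijective_of_surjective_of_rankAtStalk_eq
  · intro c
    exact ⟨_, coord_comb X a b hab c⟩
  · intro m hm
    exact (X.rank _).trans ((std (0 : Matrix (Fin 2) (Fin 2) R)).rank ⟨m, inferInstance⟩).symm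

theorem comb (X : Pt R) (a b : X.E) (hab : X.vol a b = 1) (z : X.E) :
    X.vol z b • a + X.vol a z • b = z := by
  apply (coord_bij X a b hab).1
  have := coord_comb X a b hab (coord X a b z)
  rwa [coord_zero, coord_one] at this

/-- `X` is isomorphic to the standard point with the coordinates of the sections as columns. -/
theorem iso_std (X : Pt R) (a b : X.E) (hab : X.vol a b = 1) :
    Nonempty (PtIso X (std !![X.vol X.s₁ b, X.vol X.s₂ b; X.vol a X.s₁, X.vol a X.s₂])) := by
  refine ⟨⟨LinearEquiv.ofBijective (coord X a b) (coord_bij X a b hab), fun x y => ?_, ?_, ?_⟩⟩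
  · show X.vol x b * X.vol a y - X.vol a x * X.vol y b = X.vol x y
    conv_rhs => rw [← comb X a b hab x, ← comb X a b hab y]
    simp only [map_add, map_smul, LinearMap.add_apply, LinearMap.smul_apply, X.alt, hab,
      smul_eq_mul, vol_swap X b a]
    ring
  · show coord X a b X.s₁ = _
    funext i
    fin_cases i <;> rfl
  · show coord X a b X.s₂ = _
    funext i
    fin_cases i <;> rfl

theorem exists_std [IsLocalRing R] (X : Pt R) :
    ∃ M : Matrix (Fin 2) (Fin 2) R, Nonempty (PtIso X (std M)) := by
  have : Module.Free R X.E := Module.free_of_flat_of_isLocalRing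
  have hr := X.rank ⟨IsLocalRing.maximalIdeal R, inferInstance⟩
  have hn : Nontrivial X.E := by
    by_contra h
    rw [not_nontrivial_iff_subsingleton] at h
    rw [Module.rankAtStalk_eq_zero_of_subsingleton] at hr
    simp at hr
  let b := Module.Free.chooseBasis R X.E
  obtain ⟨i⟩ : Nonempty (Module.Free.ChooseBasisIndex R X.E) := b.index_nonempty
  obtain ⟨x, hx⟩ := X.perfect.2 (b.coord i)
  have h1 : X.vol x (b i) = 1 := by
    rw [hx]
    simp
  exact ⟨_, iso_std X x (b i) h1⟩

theorem vol_comb (X : Pt R) (a b : X.E) (hab : X.vol a b = 1) (c d c' d' : R) :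
    X.vol (c • a + d • b) (c' • a + d' • b) = c * d' - d * c' := by
  have hba : X.vol b a = - 1 := by rw [vol_swap, hab]
  simp only [map_add, map_smul, LinearMap.add_apply, LinearMap.smul_apply, X.alt, hab, hba,
    smul_eq_mul]
  ring

/-- Points with invertible determinant are all isomorphic, in a unique way. -/
theorem exists_iso_of_unit (u : Rˣ) (X Y : Pt R) (hX : X.det = u) (hY : Y.det = u) :
    Nonempty (Unique (PtIso X Y)) := by
  have hX1 : X.vol X.s₁ (((u⁻¹ : Rˣ) : R) • X.s₂) = 1 := by
    rw [map_smul]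
    show _ * X.det = 1
    rw [hX, Units.inv_mul]
  have hY1 : Y.vol Y.s₁ (((u⁻¹ : Rˣ) : R) • Y.s₂) = 1 := by
    rw [map_smul]
    show _ * Y.det = 1
    rw [hY, Units.inv_mul]
  have key : ∀ (a : X.E) (b : X.E) (c d : Y.E), X.vol a b = 1 → Y.vol c d = 1 →
      ∃ e : X.E ≃ₗ[R] Y.E, (∀ z, e z = X.vol z b • c + X.vol a z • d) := by
    intro a b c d hab hcd
    refine ⟨(LinearEquiv.ofBijective (coord X a b) (coord_bij X a b hab)).trans
      (LinearEquiv.ofBijective (coord Y c d) (coord_bij Y c d hcd)).symm, fun z => ?_⟩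
    rw [LinearEquiv.trans_apply, LinearEquiv.symm_apply_eq]
    exact (coord_comb Y c d hcd (coord X a b z)).symm
  obtain ⟨e, he⟩ := key _ _ _ _ hX1 hY1
  have e1 : e X.s₁ = Y.s₁ := by
    rw [he, hX1, X.alt]
    simp
  have e2 : e X.s₂ = Y.s₂ := by
    have h : X.vol X.s₁ X.s₂ = u := hX
    rw [he, map_smul, X.alt, h, smul_zero, zero_smul, zero_add, smul_smul, Units.mul_inv, one_smul]
  refine ⟨⟨⟨⟨e, fun x y => ?_, e1, e2⟩⟩, ?_⟩⟩
  · rw [he, he, vol_comb Y _ _ hY1]
    conv_rhs => rw [← comb X _ _ hX1 x, ← comb X _ _ hX1 y]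
    rw [vol_comb X _ _ hX1]
  · rintro ⟨f, hf, hf1, hf2⟩
    congr 1
    apply LinearEquiv.ext
    intro z
    rw [← comb X _ _ hX1 z]
    simp only [map_add, map_smul, e1, e2, hf1, hf2]

theorem exists_of_unit (u : Rˣ) : ∃ X : Pt R, X.det = u := by
  refine ⟨std !![1, 0; 0, (u : R)], ?_⟩
  rw [std_det, Matrix.det_fin_two]
  simp

end Std

section Arcs

variable {F : Type} [Field F]

theorem sep_unit (φ : F⟦X⟧) (h : constantCoeff φ ≠ 0) : sep φ = 1 := by
  obtain ⟨u, hu⟩ : IsUnit φ := (PowerSeries.isUnit_iff_constantCoeff).2 (isUnit_iff_ne_zero.2 h)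
  obtain ⟨X, hX⟩ := exists_of_unit u
  have : Unique (Fib φ) :=
    { default := Quotient.mk _ ⟨X, hX.trans hu⟩
      uniq := by
        intro q
        induction q using Quotient.inductionOn with
        | _ Y =>
          apply Quotient.sound
          obtain ⟨f⟩ := exists_iso_of_unit u Y.1 X (Y.2.trans hu.symm) hX
          exact ⟨f.default⟩ }
  exact Nat.card_unique

/-- The lifts of an arc through the origin. -/
noncomputable def lift (φ : F⟦X⟧) (c : F) : {X : Pt F⟦X⟧ // X.det = φ} :=
  ⟨std !![1, C c; 0, φ], by rw [std_det, Matrix.det_fin_two]; simp⟩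

theorem lift_inj (φ : F⟦X⟧) (h : constantCoeff φ = 0) (c d : F)
    (hcd : Nonempty (PtIso (lift φ c).1 (lift φ d).1)) : c = d := by
  obtain ⟨g, e1, e2⟩ : ∃ g : (Fin 2 → F⟦X⟧) →ₗ[F⟦X⟧] (Fin 2 → F⟦X⟧), g ![1, 0] = ![1, 0] ∧
      g ![C c, φ] = ![C d, φ] := by
    obtain ⟨f⟩ := hcd
    refine ⟨f.e.toLinearMap, ?_, ?_⟩
    · have := f.s₁_eq
      have h1 : (lift φ c).1.s₁ = ![1, 0] := by funext i; fin_cases i <;> rfl
      have h2 : (lift φ d).1.s₁ = ![1, 0] := by funext i; fin_cases i <;> rfl
      rwa [h1, h2] at this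
    · have := f.s₂_eq
      have h1 : (lift φ c).1.s₂ = ![C c, φ] := by funext i; fin_cases i <;> rfl
      have h2 : (lift φ d).1.s₂ = ![C d, φ] := by funext i; fin_cases i <;> rfl
      rwa [h1, h2] at this
  have e3 : (![C c, φ] : Fin 2 → F⟦X⟧) = C c • ![1, 0] + φ • ![0, 1] := by
    funext i
    fin_cases i <;> simp
  rw [e3, map_add, map_smul, map_smul, e1] at e2
  have e5 := congrArg constantCoeff (congrFun e2 0)
  simpa [h] using e5

theorem fib_infinite [Infinite F] (φ : F⟦X⟧) (h : constantCoeff φ = 0) : Infinite (Fib φ) := by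
  apply Infinite.of_injective (fun c : F => (Quotient.mk _ (lift φ c) : Fib φ))
  intro c d hcd
  exact lift_inj φ h c d (Quotient.exact hcd)

theorem sep_zero [Infinite F] (φ : F⟦X⟧) (h : constantCoeff φ = 0) : sep φ = 0 := by
  have := fib_infinite φ h
  exact Nat.card_eq_zero_of_infinite

end Arcs

/-! ### The description by matrices over a local ring -/

section Local

variable {R : Type} [CommRing R]

/-- Over every local ring `R` the `R`-points of `[Mat_2 / SL_2]` are given by matrices, and the
isomorphisms between two of them are given by the `g ∈ SL_2(R)` mapping one matrix to the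
other. -/
def LocalDescription : Prop :=
  ∀ (R : Type) [CommRing R] [IsLocalRing R],
    (∀ X : Pt R, ∃ M : Matrix (Fin 2) (Fin 2) R, Nonempty (PtIso X (std M))) ∧
    ∀ M N : Matrix (Fin 2) (Fin 2) R,
      (∀ f : PtIso (std M) (std N), ∃! g : Matrix.SpecialLinearGroup (Fin 2) R,
        (g : Matrix (Fin 2) (Fin 2) R) * M = N ∧ ∀ x : Fin 2 → R, f.e x = g.1.mulVec x) ∧
      (∀ g : Matrix.SpecialLinearGroup (Fin 2) R, (g : Matrix (Fin 2) (Fin 2) R) * M = N →
        ∃ f : PtIso (std M) (std N), ∀ x : Fin 2 → R, f.e x = g.1.mulVec x)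

theorem stdVol_mulVec (g : Matrix (Fin 2) (Fin 2) R) (x y : Fin 2 → R) :
    stdVol R (g.mulVec x) (g.mulVec y) = g.det * stdVol R x y := by
  rw [stdVol_apply, stdVol_apply, Matrix.det_fin_two]
  simp only [Matrix.mulVec, dotProduct, Fin.sum_univ_two]
  ring

theorem localDescription : LocalDescription := by
  intro R _ _
  refine ⟨exists_std, fun M N => ⟨fun f => ?_, fun g hg => ?_⟩⟩
  · obtain ⟨e, h1, h2, h3⟩ := f
    change (Fin 2 → R) ≃ₗ[R] (Fin 2 → R) at e
    change ∀ x y : Fin 2 → R, stdVol R (e x) (e y) = stdVol R x y at h1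
    change e (fun i => M i 0) = (fun i => N i 0) at h2
    change e (fun i => M i 1) = (fun i => N i 1) at h3
    have he : ∀ x : Fin 2 → R, e x = (LinearMap.toMatrix' e.toLinearMap).mulVec x := by
      intro x
      rw [LinearMap.toMatrix'_mulVec]
      rfl
    have hdet : (LinearMap.toMatrix' e.toLinearMap).det = 1 := by
      have h := h1 ![1, 0] ![0, 1]
      rw [he, he, stdVol_mulVec] at h
      simpa [stdVol_apply] using h
    refine ⟨⟨LinearMap.toMatrix' e.toLinearMap, hdet⟩, ⟨?_, he⟩, ?_⟩
    · ext i j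
      have h4 : (LinearMap.toMatrix' e.toLinearMap * M) i j =
          (LinearMap.toMatrix' e.toLinearMap).mulVec (fun l => M l j) i := rfl
      show (LinearMap.toMatrix' e.toLinearMap * M) i j = N i j
      rw [h4, ← he]
      fin_cases j
      · exact congrFun h2 i
      · exact congrFun h3 i
    · rintro g ⟨_, hg⟩
      apply Subtype.ext
      show g.1 = LinearMap.toMatrix' e.toLinearMap
      apply Matrix.ext_of_mulVec_single
      intro j
      rw [← hg, ← he]
      rfl
  · let e : (Fin 2 → R) ≃ₗ[R] (Fin 2 → R) := Matrix.SpecialLinearGroup.toLin' g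
    have he : ∀ x, e x = g.1.mulVec x := fun x => rfl
    have hv : ∀ x y : Fin 2 → R, stdVol R (e x) (e y) = stdVol R x y := by
      intro x y
      rw [he, he, stdVol_mulVec, g.2, one_mul]
    refine ⟨⟨e, fun x y => hv x y, ?_, ?_⟩, he⟩
    · show e (fun i => M i 0) = fun i => N i 0
      rw [he]
      funext i
      rw [← hg]
      rfl
    · show e (fun i => M i 1) = fun i => N i 1
      rw [he]
      funext i
      rw [← hg]
      rfl

end Local

/-! ### The good moduli space -/

section Invariants

/-- The ring of `SL_2`-invariants of `k[Mat_2]` is `k[det]`: the good moduli space of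
`[Mat_2 / SL_2]` is `det : [Mat_2 / SL_2] → A^1`. -/
def InvariantsAreDet (k : Type) [Field k] : Prop :=
  ∀ f : MvPolynomial (Fin 2 × Fin 2) k,
    (∀ (g : Matrix.SpecialLinearGroup (Fin 2) k) (M : Matrix (Fin 2) (Fin 2) k),
      MvPolynomial.eval (fun ij => (g.1 * M) ij.1 ij.2) f =
        MvPolynomial.eval (fun ij => M ij.1 ij.2) f) →
    ∃ q : Polynomial k, f = Polynomial.aeval (MvPolynomial.X (0, 0) * MvPolynomial.X (1, 1) -
      MvPolynomial.X (0, 1) * MvPolynomial.X (1, 0)) q

theorem invariantsAreDet (k : Type) [Field k] [Infinite k] : InvariantsAreDet k := by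
  intro f hf
  let D : MvPolynomial (Fin 2 × Fin 2) k := MvPolynomial.X (0, 0) * MvPolynomial.X (1, 1) -
      MvPolynomial.X (0, 1) * MvPolynomial.X (1, 0)
  let q : Polynomial k := MvPolynomial.aeval
    (fun ij : Fin 2 × Fin 2 => (!![Polynomial.X, 0; 0, 1] : Matrix (Fin 2) (Fin 2) (Polynomial k))
      ij.1 ij.2) f
  have hq : ∀ c : k, q.eval c = MvPolynomial.eval (fun ij : Fin 2 × Fin 2 =>
      (!![c, 0; 0, 1] : Matrix (Fin 2) (Fin 2) k) ij.1 ij.2) f := by
    intro c
    have h1 : (Polynomial.evalRingHom c) q = MvPolynomial.eval₂ ((Polynomial.evalRingHom c).comp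
        (algebraMap k (Polynomial k))) (fun ij : Fin 2 × Fin 2 => Polynomial.evalRingHom c
          ((!![Polynomial.X, 0; 0, 1] : Matrix (Fin 2) (Fin 2) (Polynomial k)) ij.1 ij.2)) f := by
      show (Polynomial.evalRingHom c) (MvPolynomial.aeval _ f) = _
      rw [MvPolynomial.aeval_def, MvPolynomial.hom_eval₂]
    rw [← Polynomial.coe_evalRingHom, h1]
    have h2 : (fun ij : Fin 2 × Fin 2 => (Polynomial.evalRingHom c)
        ((!![Polynomial.X, 0; 0, 1] : Matrix (Fin 2) (Fin 2) (Polynomial k)) ij.1 ij.2)) =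
        fun ij => (!![c, 0; 0, 1] : Matrix (Fin 2) (Fin 2) k) ij.1 ij.2 := by
      funext ij
      obtain ⟨i, j⟩ := ij
      fin_cases i <;> fin_cases j <;> simp
    have h3 : (Polynomial.evalRingHom c).comp (algebraMap k (Polynomial k)) = RingHom.id k :=
      RingHom.ext fun x => by simp
    rw [h2, h3]
    rfl
  have hD : ∀ M : Fin 2 × Fin 2 → k, MvPolynomial.eval M D =
      M (0, 0) * M (1, 1) - M (0, 1) * M (1, 0) := by
    intro M
    simp [D]
  have hD0 : D ≠ 0 := by
    intro h
    have := hD (fun ij => if ij.1 = ij.2 then 1 else 0)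
    rw [h] at this
    simp at this
  refine ⟨q, ?_⟩
  show f = Polynomial.aeval D q
  have key : D * f = D * Polynomial.aeval D q := by
    apply MvPolynomial.funext
    intro M
    rw [map_mul, map_mul]
    rcases eq_or_ne (MvPolynomial.eval M D) 0 with h0 | h0
    · rw [h0, zero_mul, zero_mul]
    · congr 1
      have h1 : MvPolynomial.eval M (Polynomial.aeval D q) =
          q.eval (MvPolynomial.eval M D) := by
        have h2 := Polynomial.hom_eval₂ q (algebraMap k (MvPolynomial (Fin 2 × Fin 2) k))
          (MvPolynomial.eval M) D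
        rw [Polynomial.aeval_def, h2, Polynomial.eval]
        congr 1
        ext x
        simp
      rw [h1, hq]
      set d := MvPolynomial.eval M D with hd
      have hd2 : d = M (0, 0) * M (1, 1) - M (0, 1) * M (1, 0) := hD M
      let g : Matrix.SpecialLinearGroup (Fin 2) k :=
        ⟨!![M (0, 0) / d, M (0, 1); M (1, 0) / d, M (1, 1)], by
          rw [Matrix.det_fin_two]
          simp
          field_simp
          rw [hd2]⟩
      have h3 := hf g !![d, 0; 0, 1]
      rw [← h3]
      have h4 : M = fun ij : Fin 2 × Fin 2 =>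
          ((g : Matrix (Fin 2) (Fin 2) k) * !![d, 0; 0, 1]) ij.1 ij.2 := by
        funext ij
        obtain ⟨i, j⟩ := ij
        fin_cases i <;> fin_cases j <;> simp [g, h0]
      exact congrArg (fun t => MvPolynomial.eval t f) h4
  exact mul_left_cancel₀ hD0 key

end Invariants

/-! ### The stabilizers -/

section Stabilizers

variable {F : Type} [Field F]

/-- The stabilizer of `M ∈ Mat_2(F)` in `SL_2`, on `S`-points, for an `F`-algebra `S`. -/
def stab (M : Matrix (Fin 2) (Fin 2) F) (S : Type) [CommRing S] [Algebra F S] :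
    Set (Matrix.SpecialLinearGroup (Fin 2) S) :=
  {g | (g : Matrix (Fin 2) (Fin 2) S) * M.map (algebraMap F S) = M.map (algebraMap F S)}

/-- All stabilizers of `[Mat_2 / SL_2]` are `SL_2`, `1` or `G_a` (the group of the `1 + r N` for a
nonzero matrix `N` with `N ^ 2 = 0`), and hence special. -/
def StabilizersSpecial : Prop :=
  ∀ (F : Type) [Field F] (M : Matrix (Fin 2) (Fin 2) F),
    (∀ (S : Type) [CommRing S] [Algebra F S], stab M S = Set.univ) ∨
    (∀ (S : Type) [CommRing S] [Algebra F S], stab M S = {1}) ∨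
    ∃ N : Matrix (Fin 2) (Fin 2) F, N ≠ 0 ∧ N * N = 0 ∧
      ∀ (S : Type) [CommRing S] [Algebra F S], stab M S =
        {g | ∃ r : S, g.1 = 1 + r • N.map (algebraMap F S)}

theorem stabilizersSpecial : StabilizersSpecial := by
  intro F _ M
  rcases eq_or_ne M 0 with hM | hM
  · left
    intro S _ _
    ext g
    simp [stab, hM]
  rcases ne_or_eq M.det 0 with hdet | hdet
  · right
    left
    intro S _ _
    ext g
    rw [Set.mem_singleton_iff]
    constructor
    · intro hg
      have h1 : IsUnit (M.map (algebraMap F S)) := by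
        rw [Matrix.isUnit_iff_isUnit_det]
        have : (M.map (algebraMap F S)).det = algebraMap F S M.det := by
          rw [RingHom.map_det]
          rfl
        rw [this]
        exact (isUnit_iff_ne_zero.2 hdet).map _
      apply Subtype.ext
      apply h1.mul_right_cancel
      rw [Matrix.SpecialLinearGroup.coe_one, one_mul]
      exact hg
    · rintro rfl
      simp [stab]
  · right
    right
    obtain ⟨j, hj⟩ : ∃ j, (fun i => M i j) ≠ 0 := by
      by_contra h
      push Not at h
      apply hM
      ext i j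
      exact congrFun (h j) i
    set v : Fin 2 → F := fun i => M i j with hv
    obtain ⟨w, hw, hwj⟩ : ∃ w : Fin 2 → F, (∀ i l, M i l = v i * w l) ∧ w j = 1 := by
      rw [Matrix.det_fin_two] at hdet
      obtain ⟨i0, hi0⟩ : ∃ i, M i j ≠ 0 := by
        by_contra h
        push Not at h
        exact hj (funext h)
      refine ⟨fun l => M i0 l / M i0 j, fun i l => ?_, div_self hi0⟩
      rw [hv, mul_div_assoc', eq_div_iff hi0]
      fin_cases j <;> fin_cases i0 <;> fin_cases i <;> fin_cases l <;> simp at * <;>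
        first | ring1 | linear_combination hdet | linear_combination (-1 : F) * hdet
    refine ⟨!![-(v 0 * v 1), v 0 * v 0; -(v 1 * v 1), v 1 * v 0], ?_, ?_, ?_⟩
    · intro h
      apply hj
      funext i
      have h1 := congrFun (congrFun h 0) 1
      have h2 := congrFun (congrFun h 1) 0
      simp at h1 h2
      fin_cases i
      · exact h1
      · exact h2
    · ext i l
      rw [Matrix.mul_apply, Fin.sum_univ_two]
      fin_cases i <;> fin_cases l <;> simp <;> ring
    · intro S _ _
      ext g
      have hg' : g ∈ stab M S ↔ ∀ i l, g.1 i 0 * algebraMap F S (M 0 l) +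
          g.1 i 1 * algebraMap F S (M 1 l) = algebraMap F S (M i l) := by
        constructor
        · intro h i l
          have := congrFun (congrFun h i) l
          rw [Matrix.mul_apply, Fin.sum_univ_two] at this
          exact this
        · intro h
          ext i l
          rw [Matrix.mul_apply, Fin.sum_univ_two]
          exact h i l
      rw [hg']
      set x := algebraMap F S (v 0) with hx
      set y := algebraMap F S (v 1) with hy
      constructor
      · intro h
        have k0 := h 0 j
        have k1 := h 1 j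
        rw [hw, hw, hwj, mul_one, mul_one, ← hx, ← hy] at k0 k1
        have hd := g.2
        rw [Matrix.det_fin_two] at hd
        have goal' : ∃ r : S, g.1 0 0 = 1 - r * (x * y) ∧ g.1 0 1 = r * (x * x) ∧
            g.1 1 0 = - (r * (y * y)) ∧ g.1 1 1 = 1 + r * (x * y) := by
          rcases ne_or_eq (v 0) 0 with h0 | h0
          · obtain ⟨u, hc⟩ : ∃ u : S, u * x = 1 :=
              ⟨algebraMap F S (v 0)⁻¹, by rw [hx, ← map_mul, inv_mul_cancel₀ h0, map_one]⟩
            refine ⟨u * u * g.1 0 1, ?_, ?_, ?_, ?_⟩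
            · linear_combination u * k0 + (u * g.1 0 1 * y - (g.1 0 0 - 1)) * hc
            · linear_combination (-(g.1 0 1 * (1 + u * x))) * hc
            · linear_combination u * k1 - g.1 1 0 * hc -
                u * y * (u * (x * hd - g.1 1 1 * k0 + g.1 0 1 * k1) -
                (g.1 1 1 - 1 + u * g.1 0 1 * y) * hc) - u ^ 2 * g.1 0 1 * y ^ 2 * hc
            · linear_combination u * (x * hd - g.1 1 1 * k0 + g.1 0 1 * k1) -
                (g.1 1 1 - 1 + u * g.1 0 1 * y) * hc
          · have h1 : v 1 ≠ 0 := by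
              intro h1
              apply hj
              funext i
              fin_cases i
              · exact h0
              · exact h1
            obtain ⟨u, hc⟩ : ∃ u : S, u * y = 1 :=
              ⟨algebraMap F S (v 1)⁻¹, by rw [hy, ← map_mul, inv_mul_cancel₀ h1, map_one]⟩
            refine ⟨-(u * u * g.1 1 0), ?_, ?_, ?_, ?_⟩
            · linear_combination u * (y * hd - g.1 0 0 * k1 + g.1 1 0 * k0) -
                (g.1 0 0 - 1 + u * g.1 1 0 * x) * hc
            · linear_combination u * k0 - g.1 0 1 * hc -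
                u * x * (u * (y * hd - g.1 0 0 * k1 + g.1 1 0 * k0) -
                (g.1 0 0 - 1 + u * g.1 1 0 * x) * hc) - u ^ 2 * g.1 1 0 * x ^ 2 * hc
            · linear_combination (-(g.1 1 0 * (1 + u * y))) * hc
            · linear_combination u * k1 + (u * g.1 1 0 * x - (g.1 1 1 - 1)) * hc
        obtain ⟨r, r1, r2, r3, r4⟩ := goal'
        refine ⟨r, ?_⟩
        ext i l
        fin_cases i <;> fin_cases l
        · simp [r1, ← hx, ← hy]
          ring
        · simp [r2, ← hx]
        · simp [r3, ← hy]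
        · simp [r4, ← hx, ← hy]
          ring
      · rintro ⟨r, hr⟩ i l
        have r1 := congrFun (congrFun hr 0) 0
        have r2 := congrFun (congrFun hr 0) 1
        have r3 := congrFun (congrFun hr 1) 0
        have r4 := congrFun (congrFun hr 1) 1
        simp [← hx, ← hy] at r1 r2 r3 r4
        rw [hw, hw, hw, map_mul, map_mul, map_mul, ← hx, ← hy]
        fin_cases i
        · show g.1 0 0 * _ + g.1 0 1 * _ = x * _
          rw [r1, r2]
          ring
        · show g.1 1 0 * _ + g.1 1 1 * _ = y * _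
          rw [r3, r4]
          ring

end Stabilizers

/-! ### The arc space and null sets -/

section Measure

variable {k : Type} [Field k]

theorem constantCoeff_arcOf (P : PrimeSpectrum (MvPolynomial ℕ k)) :
    constantCoeff (arcOf P) = 0 ↔ MvPolynomial.X 0 ∈ P.asIdeal := by
  rw [← Ideal.algebraMap_residueField_eq_zero (I := P.asIdeal)]
  unfold arcOf
  rw [← PowerSeries.coeff_zero_eq_constantCoeff_apply, PowerSeries.coeff_mk]

/-- The set `sep_π ⁻¹ (0)` of points of the arc space of `A^1`. -/
def sepZero (k : Type) [Field k] : Set (PrimeSpectrum (MvPolynomial ℕ k)) :=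
  {P | sep (arcOf P) = 0}

theorem sepZero_eq [Infinite k] : sepZero k = PrimeSpectrum.zeroLocus {MvPolynomial.X 0} := by
  ext P
  have : Infinite P.asIdeal.ResidueField :=
    Infinite.of_injective (algebraMap k P.asIdeal.ResidueField)
      (algebraMap k P.asIdeal.ResidueField).injective
  rw [PrimeSpectrum.mem_zeroLocus, Set.singleton_subset_iff, SetLike.mem_coe,
    ← constantCoeff_arcOf]
  constructor
  · intro h
    by_contra h0
    have h1 : sep (arcOf P) = 0 := h
    rw [sep_unit _ h0] at h1
    exact one_ne_zero h1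
  · intro h
    exact sep_zero _ h

/-- The truncation map `θ_n` from the arc space of `A^1` to its space of `n`-jets, the spectrum of
`k[x_0, ..., x_n]`. -/
noncomputable def trunc (n : ℕ) : PrimeSpectrum (MvPolynomial ℕ k) →
    PrimeSpectrum (MvPolynomial (Fin (n + 1)) k) :=
  PrimeSpectrum.comap (MvPolynomial.rename (Fin.val : Fin (n + 1) → ℕ)).toRingHom

/-- A set `A` of points of the arc space of `A^1` is null if for every `m` it is contained in a
countable union of cylinders `θ_n ⁻¹ (B)`, with `B` a constructible set of codimension at least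
`m` in the `n`-jet space, i.e. cylinders with motivic measure of dimension at most `- m`. (A
measurable set has the motivic measure `0` if and only if it is null.) -/
def IsNull (A : Set (PrimeSpectrum (MvPolynomial ℕ k))) : Prop :=
  ∀ m : ℕ, ∃ (n : ℕ → ℕ) (B : (i : ℕ) → Set (PrimeSpectrum (MvPolynomial (Fin (n i + 1)) k))),
    (∀ i, Topology.IsConstructible (B i)) ∧ (∀ i, ∀ P ∈ B i, (m : ℕ∞) ≤ P.asIdeal.height) ∧
      A ⊆ ⋃ i, trunc (n i) ⁻¹' (B i)

theorem X_dvd_of_rename (n : ℕ) (f : MvPolynomial (Fin (n + 1)) k)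
    (h : (MvPolynomial.X 0 : MvPolynomial ℕ k) ∣ MvPolynomial.rename Fin.val f) :
    (MvPolynomial.X 0 : MvPolynomial (Fin (n + 1)) k) ∣ f := by
  obtain ⟨g, hg⟩ := h
  let ρ : MvPolynomial ℕ k →ₐ[k] MvPolynomial (Fin (n + 1)) k :=
    MvPolynomial.aeval fun i => if h : i < n + 1 then MvPolynomial.X ⟨i, h⟩ else 0
  have h1 : ρ (MvPolynomial.rename Fin.val f) = f := by
    rw [MvPolynomial.aeval_rename]
    have : ((fun i : ℕ => if h : i < n + 1 then (MvPolynomial.X ⟨i, h⟩ :
        MvPolynomial (Fin (n + 1)) k) else 0) ∘ Fin.val) = MvPolynomial.X := by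
      funext i
      have hi := i.2
      simp only [Function.comp_apply, dif_pos hi]
    rw [this, MvPolynomial.aeval_X_left]
    rfl
  refine ⟨ρ g, ?_⟩
  rw [← h1, hg, map_mul]
  congr 1
  simp [ρ]

theorem not_isNull : ¬ IsNull (PrimeSpectrum.zeroLocus {MvPolynomial.X 0} :
    Set (PrimeSpectrum (MvPolynomial ℕ k))) := by
  intro h
  obtain ⟨n, B, -, h2, h3⟩ := h 2
  have hp : (Ideal.span {(MvPolynomial.X 0 : MvPolynomial ℕ k)}).IsPrime := by
    rw [Ideal.span_singleton_prime (MvPolynomial.X_ne_zero 0)]
    exact MvPolynomial.X_prime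
  let η : PrimeSpectrum (MvPolynomial ℕ k) := ⟨_, hp⟩
  have hη : η ∈ (PrimeSpectrum.zeroLocus {MvPolynomial.X 0} :
      Set (PrimeSpectrum (MvPolynomial ℕ k))) := by
    rw [PrimeSpectrum.mem_zeroLocus, Set.singleton_subset_iff]
    exact Ideal.mem_span_singleton_self _
  obtain ⟨i, hi⟩ := Set.mem_iUnion.1 (h3 hη)
  have h4 := h2 i _ hi
  have h5 : (trunc (n i) η).asIdeal =
      Ideal.span {(MvPolynomial.X 0 : MvPolynomial (Fin (n i + 1)) k)} := by
    ext f
    rw [Ideal.mem_span_singleton]
    constructor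
    · intro hf
      apply X_dvd_of_rename
      rw [← Ideal.mem_span_singleton]
      exact hf
    · rintro ⟨g, rfl⟩
      show MvPolynomial.rename Fin.val (MvPolynomial.X 0 * g) ∈
        Ideal.span {(MvPolynomial.X 0 : MvPolynomial ℕ k)}
      rw [map_mul, MvPolynomial.rename_X]
      exact Ideal.mul_mem_right _ _ (Ideal.subset_span rfl)
  have h6 : (trunc (n i) η).asIdeal.height ≤ 1 := by
    rw [h5]
    apply Ideal.height_le_one_of_isPrincipal_of_mem_minimalPrimes
      (Ideal.span {(MvPolynomial.X 0 : MvPolynomial (Fin (n i + 1)) k)})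
    have : (Ideal.span {(MvPolynomial.X 0 : MvPolynomial (Fin (n i + 1)) k)}).IsPrime := by
      rw [← h5]
      exact (trunc (n i) η).isPrime
    rw [Ideal.minimalPrimes_eq_subsingleton_self]
    rfl
  have h7 := h4.trans h6
  exact absurd h7 (by decide)

end Measure

/-- `π` is an isomorphism over `A^1 - 0`: for every ring `R` and every unit `u` of `R` there is
an `R`-point over `u`, and any two are isomorphic by a unique isomorphism. -/
def IsoOverUnits : Prop :=
  ∀ (R : Type) [CommRing R] (u : Rˣ), (∃ X : Pt R, X.det = u) ∧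
    ∀ X Y : Pt R, X.det = u → Y.det = u → Nonempty (Unique (PtIso X Y))

/-- **Result.** The stack `[Mat_2 / SL_2]` with its good moduli space `det` to `X = A^1`, an
isomorphism over `A^1 - 0`, with all stabilizers special, is a counterexample: `sep ⁻¹ (0)` is the
cylinder of all arcs with constant term `0`, and it is not null. -/
theorem result (k : Type) [Field k] [IsAlgClosed k] [CharZero k] :
    (InvariantsAreDet k ∧ IsoOverUnits ∧ LocalDescription ∧ StabilizersSpecial) ∧
    (∀ (F : Type) [Field F] [CharZero F] (φ : F⟦X⟧),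
      (constantCoeff φ ≠ 0 → sep φ = 1) ∧ (constantCoeff φ = 0 → Infinite (Fib φ) ∧ sep φ = 0)) ∧
    sepZero k = PrimeSpectrum.zeroLocus {MvPolynomial.X 0} ∧ ¬ IsNull (sepZero k) := by
  have : Infinite k := IsAlgClosed.instInfinite
  refine ⟨⟨invariantsAreDet k, fun R _ u => ⟨exists_of_unit u, exists_iso_of_unit u⟩,
    localDescription, stabilizersSpecial⟩, fun F _ _ φ => ⟨sep_unit φ, fun h => ⟨?_, sep_zero φ h⟩⟩,
    sepZero_eq, ?_⟩
  · exact fib_infinite φ h
  · rw [sepZero_eq]
    exact not_isNull

end Pool.Agent.Results.MP_d9eb96_ag.SL2Arcs
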